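import Mathlib
import Pool.Agent.H24.FlgDefs
import Pool.Agent.H24.Flg1

namespace Pool.Agent.Results.MP_7b57dc_co.Lower
open Pool.Agent.H24.FlgDefs

theorem result (K : Type*) [Field K] (m : ℕ) (hm : 1 ≤ m) : ∃ d0 : ℕ, ∀ d, d0 ≤ d →
    ∃ U : Fin m → ℕ → Submodule K (Fin d → K), (∀ j, IsFlag (U j)) ∧
      ∀ S : Finset (Fin d → K), (∀ j, Generates S (U j)) → mu m d ≤ S.card :=
  Pool.Agent.H24.Flg1.main K m hm

end Pool.Agent.Results.MP_7b57dc_co.Lower
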